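import Pool.Agent.H77.KG.Targets

/-!
# HMI: images and inverse images of definable subgroups (board kgr_modules)
-/

set_option autoImplicit false
set_option linter.unusedSectionVars false

open Set Pool.Agent.H77.BC Pool.Agent.H77.BD Pool.Agent.H77.KG

namespace Pool.Agent.H12.KGR

variable {M : Type} {U : RU M} {Γ Δ : Type} [Group Γ] [Group Δ] [Cod M Γ] [Cod M Δ]
  [DG U Γ] [DG U Δ]

private theorem ker_def {p : Γ →* Δ} (hp : DFn U (fun g => p g)) : U.D (p.ker : Set Γ) := by
  have h : U.D {g : Γ | p g = 1} := D_eqf hp (DFn_const (1 : Δ))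
  have e : (p.ker : Set Γ) = {g : Γ | p g = 1} := by
    ext g; exact MonoidHom.mem_ker
  rw [e]; exact h

private theorem inf_def {H K : Subgroup Γ} (hH : U.D (H : Set Γ)) (hK : U.D (K : Set Γ)) :
    U.D ((H ⊓ K : Subgroup Γ) : Set Γ) := by
  rw [Subgroup.coe_inf]; exact D_inter hH hK

private theorem comap_def {p : Γ →* Δ} (hp : DFn U (fun g => p g)) {H' : Subgroup Δ}
    (h : U.D (H' : Set Δ)) : U.D ((H'.comap p : Subgroup Γ) : Set Γ) :=
  DFn_preim (Y := (H' : Set Δ)) hp h

private theorem map_def {p : Γ →* Δ} (hp : DFn U (fun g => p g)) {H : Subgroup Γ}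
    (h : U.D (H : Set Γ)) : U.D ((H.map p : Subgroup Δ) : Set Δ) := by
  rw [Subgroup.coe_map]
  exact DFn_image hp h

private theorem rank_map {p : Γ →* Δ} (hp : DFn U (fun g => p g)) {H : Subgroup Γ}
    (h : U.D (H : Set Γ)) : U.R (H : Set Γ) = U.R ((H.map p : Subgroup Δ) : Set Δ) +
      U.R ((H ⊓ p.ker : Subgroup Γ) : Set Γ) := by
  rw [Subgroup.coe_map]
  refine Pool.Agent.H77.BCP.a_GRC U H (H ⊓ p.ker) (fun g => p g) h (inf_def h (ker_def hp))
    inf_le_left hp ?_
  intro a ha b hb
  constructor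
  · intro hab
    refine ⟨H.mul_mem (H.inv_mem ha) hb, ?_⟩
    change a⁻¹ * b ∈ p.ker
    rw [MonoidHom.mem_ker, map_mul, map_inv]
    have h1 : p a = p b := hab
    rw [h1, inv_mul_cancel]
  · intro hab
    have h1 : a⁻¹ * b ∈ p.ker := hab.2
    rw [MonoidHom.mem_ker, map_mul, map_inv] at h1
    exact (inv_mul_eq_one.1 h1)

theorem pf_HMI : T_HMI := by
  intro M U Γ Δ _ _ _ _ _ _ p hp
  refine ⟨fun H hH => ⟨map_def hp hH, rank_map hp hH, ?_⟩, fun H' hH' => ⟨comap_def hp hH', ?_⟩⟩
  · rintro ⟨-, hc⟩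
    refine ⟨map_def hp hH, fun L hL hd hr => ?_⟩
    have hKd : U.D ((H ⊓ L.comap p : Subgroup Γ) : Set Γ) := inf_def hH (comap_def hp hd)
    have hmap : (H ⊓ L.comap p).map p = L := by
      apply le_antisymm
      · rintro _ ⟨x, hx, rfl⟩
        exact hx.2
      · intro y hy
        obtain ⟨x, hx, rfl⟩ := hL hy
        exact ⟨x, ⟨hx, hy⟩, rfl⟩
    have hker : (H ⊓ L.comap p) ⊓ p.ker = H ⊓ p.ker := by
      apply le_antisymm
      · exact inf_le_inf_right _ inf_le_left
      · refine le_inf (le_inf inf_le_left ?_) inf_le_right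
        intro x hx
        change p x ∈ L
        have h1 : x ∈ p.ker := hx.2
        rw [MonoidHom.mem_ker] at h1
        rw [h1]; exact L.one_mem
    have h1 := rank_map hp hH
    have h2 := rank_map hp hKd
    rw [hmap, hker] at h2
    have h3 := hc (H ⊓ L.comap p) inf_le_left hKd (by omega)
    rw [h3] at hmap
    exact hmap.symm
  · intro hle
    have h2 := rank_map hp (comap_def hp hH')
    have hmap : (H'.comap p).map p = H' := Subgroup.map_comap_eq_self hle
    have hker : (H'.comap p) ⊓ p.ker = p.ker := by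
      apply le_antisymm inf_le_right
      refine le_inf ?_ le_rfl
      intro x hx
      change p x ∈ H'
      rw [MonoidHom.mem_ker] at hx
      rw [hx]; exact H'.one_mem
    rw [hmap, hker] at h2
    exact h2

end Pool.Agent.H12.KGR
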